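import Pool.Agent.H3.SF.Targets
import Pool.Agent.H48.SQ.PP
import Pool.Agent.H14.SQ.ORD

/-!
TREE: the number of `n ≤ x` with a long path in the decision tree.
-/

set_option autoImplicit false

namespace Pool.Agent.H49.SF

open Finset Pool.Agent.H3.SF Pool.Agent.H99.SQ

/-- the sum of `1 / p ^ 2` over a finite set of numbers larger than `V` -/
theorem sum_inv_sq_le (V : ℕ) (hV : 1 ≤ V) (G : Finset ℕ) (hG : ∀ p ∈ G, V < p) :
    ∑ p ∈ G, ((p : ℝ) ^ 2)⁻¹ ≤ (V : ℝ)⁻¹ := by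
  set N := G.sup id + V with hN
  have hsub : G ⊆ Finset.Ioc V N := by
    intro p hp
    rw [Finset.mem_Ioc]
    refine ⟨hG p hp, ?_⟩
    have h1 : id p ≤ G.sup id := Finset.le_sup hp
    simp only [id_eq] at h1
    omega
  have h1 : ∑ p ∈ G, ((p : ℝ) ^ 2)⁻¹ ≤ ∑ p ∈ Finset.Ioc V N, ((p : ℝ) ^ 2)⁻¹ :=
    Finset.sum_le_sum_of_subset_of_nonneg hsub fun p _ _ => by positivity
  have h2 : ∑ p ∈ Finset.Ioc V N, ((p : ℝ) ^ 2)⁻¹ ≤ (V : ℝ)⁻¹ - (N : ℝ)⁻¹ :=
    sum_Ioc_inv_sq_le_sub (by omega) (by omega)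
  have h3 : (0 : ℝ) ≤ (N : ℝ)⁻¹ := by positivity
  linarith

theorem pf_TREE (hFPB : T_FPB) (hLO : T_LO) (hCLS : T_CLS) (hRES : T_RES) : T_TREE := by
  classical
  intro T V x B τ I F hT hTV hτ hBx hI0 hstep hF r
  have hV : 1 ≤ V := hT.trans hTV
  have hV0 : (0 : ℝ) < V := by exact_mod_cast hV
  have hT0 : (0 : ℝ) ≤ T := Nat.cast_nonneg T
  have hx0 : (0 : ℝ) ≤ x := Nat.cast_nonneg x
  have hd0 : 0 ≤ (T : ℝ) / V := div_nonneg hT0 hV0.le
  have hd1 : (T : ℝ) / V ≤ 1 := by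
    rw [div_le_one hV0]
    exact_mod_cast hTV
  induction r with
  | zero =>
    intro P c A hP hPB hA
    have hP0 := hI0 P hP
    obtain ⟨-, hQ0, hQ2, -, -, -, -⟩ := hFPB P hP0
    rw [pow_zero, mul_one] at hPB
    have hQ : (0 : ℝ) < (QQ (FP P) : ℝ) := by exact_mod_cast hQ0
    have h1 := Pool.Agent.H48.SQ.pf_PP x (QQ (FP P)) 1 c 0 A hQ0 one_pos
      (Nat.coprime_one_right _) (fun n hn => ⟨(hA n hn).1, (hA n hn).2.1, Nat.modEq_one⟩)
    have hQx : QQ (FP P) ≤ x := hQ2.trans ((Nat.pow_le_pow_right (by norm_num) hPB).trans hBx)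
    have hQxr : (QQ (FP P) : ℝ) ≤ x := by exact_mod_cast hQx
    have h2 : (1 : ℝ) ≤ x / QQ (FP P) := (one_le_div hQ).2 hQxr
    refine h1.trans ?_
    rw [Nat.cast_one, mul_one, pow_zero, Nat.cast_zero, zero_mul, add_zero, mul_one, mul_div_assoc]
    linarith
  | succ r ih =>
    intro P c A hP hPB hA
    have hP0 := hI0 P hP
    obtain ⟨hQm, hQ0, hQ2, hQ3, hQ4, hQ5, hQ6⟩ := hFPB P hP0
    have hQ : (0 : ℝ) < (QQ (FP P) : ℝ) := by exact_mod_cast hQ0
    have hTr : 1 ≤ T ^ (r + 1) := Nat.one_le_pow _ _ hT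
    have hPB' : P ≤ B := (Nat.le_mul_of_pos_right P (by omega)).trans hPB
    set AF := A.filter (fun n => F P n) with hAF
    have hAFc : (AF.card : ℝ) ≤ τ * x / QQ (FP P) := by
      refine hF P c AF hP hPB' fun n hn => ?_
      rw [hAF, Finset.mem_filter] at hn
      exact ⟨(hA n hn.1).1, (hA n hn.1).2.1, hn.2⟩
    set G := (Finset.range (2 ^ (T * P))).filter
      (fun p => OP p ∧ ¬ mm p ∣ P ∧ Nat.lcm P (mm p) ≤ T * P) with hG
    set Ap : ℕ → Finset ℕ := fun p => A.filter (fun n =>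
      (∃ l, l ≡ lo P n [MOD P] ∧ Kill p n l) ∧ Bad T F r (Nat.lcm P (mm p)) n) with hAp
    set B' : ℝ := (2 * ((T : ℝ) / V) ^ r + r * τ) * x with hB'
    have hB'0 : 0 ≤ B' := by
      have h1 : 0 ≤ ((T : ℝ) / V) ^ r := pow_nonneg hd0 r
      have h2 : (0 : ℝ) ≤ r := Nat.cast_nonneg r
      positivity
    have hcov : A ⊆ AF ∪ G.biUnion Ap := by
      intro n hn
      rw [Finset.mem_union, Finset.mem_biUnion]
      have hb := (hA n hn).2.2
      rw [Bad] at hb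
      rcases hb with ⟨p, hp1, hp2, hp3, hp4, hp5⟩ | hb
      · right
        refine ⟨p, ?_, Finset.mem_filter.2 ⟨hn, hp4, hp5⟩⟩
        rw [hG, Finset.mem_filter, Finset.mem_range]
        refine ⟨?_, hp1, hp2, hp3⟩
        obtain ⟨hm0, hm1, -⟩ := Pool.Agent.H14.SQ.pf_ORD p hp1
        have h1 : mm p ≤ Nat.lcm P (mm p) :=
          Nat.le_of_dvd (Nat.lcm_pos hP0 hm0) (Nat.dvd_lcm_right _ _)
        have h2 : 2 ^ mm p ≤ 2 ^ (T * P) := Nat.pow_le_pow_right (by norm_num) (h1.trans hp3)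
        have h3 : p ≤ p ^ 2 := Nat.le_self_pow (by norm_num) p
        omega
      · left
        exact Finset.mem_filter.2 ⟨hn, hb⟩
    have hApc : ∀ p ∈ G, ((Ap p).card : ℝ) ≤ T * B' / QQ (FP P) * ((p : ℝ) ^ 2)⁻¹ := by
      intro p hp
      rw [hG, Finset.mem_filter] at hp
      obtain ⟨-, hp1, hp2, hp3⟩ := hp
      obtain ⟨hVp, hIl⟩ := hstep P p hP hp1 hp2 hp3
      obtain ⟨R, hR1, hR2, hR3⟩ := hCLS p P (lo P c) T hp1 hP0 hp3
      have hl0 := hI0 _ hIl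
      have hp0 : 0 < p := hp1.1.pos
      have hq0 : 0 < p ^ 2 := pow_pos hp0 2
      obtain ⟨-, hQ20, -⟩ := hFPB _ hl0
      have hdiv := hQ6 (Nat.lcm P (mm p)) p hl0 (Nat.dvd_lcm_left _ _) hp1 hp2
        (Nat.dvd_lcm_right _ _)
      have h1 := hRES (QQ (FP P)) (p ^ 2) (QQ (FP (Nat.lcm P (mm p)))) c R (Ap p) B' hQ0 hq0 hQ20
        (hQ4 p hp1 hp2) hdiv hB'0 hR2 ?_ ?_
      · refine h1.trans ?_
        have hR1r : (R.card : ℝ) ≤ T := by exact_mod_cast hR1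
        have hpr : (0 : ℝ) < (p : ℝ) ^ 2 := by positivity
        push_cast
        rw [← div_eq_mul_inv, div_div]
        exact div_le_div_of_nonneg_right (mul_le_mul_of_nonneg_right hR1r hB'0)
          (mul_pos hQ hpr).le
      · intro n hn
        rw [hAp] at hn
        simp only [Finset.mem_filter] at hn
        obtain ⟨hnA, ⟨l, hl1, hl2⟩, -⟩ := hn
        refine ⟨(hA n hnA).2.1, hR3 n l ?_ hl2⟩
        rw [← (hLO P n hP0).1 c (hA n hnA).2.1]
        exact hl1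
      · intro c'
        have h2 := ih (Nat.lcm P (mm p)) c' ((Ap p).filter fun n =>
          n ≡ c' [MOD QQ (FP (Nat.lcm P (mm p)))]) hIl ?_ ?_
        · exact h2
        · refine le_trans ?_ hPB
          calc Nat.lcm P (mm p) * T ^ r ≤ T * P * T ^ r := Nat.mul_le_mul_right _ hp3
            _ = P * T ^ (r + 1) := by ring
        · intro n hn
          rw [hAp] at hn
          simp only [Finset.mem_filter] at hn
          exact ⟨(hA n hn.1.1).1, hn.2, hn.1.2.2⟩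
    have hcard : (A.card : ℝ) ≤ AF.card + ∑ p ∈ G, ((Ap p).card : ℝ) := by
      have h1 := Finset.card_le_card hcov
      have h2 := Finset.card_union_le AF (G.biUnion Ap)
      have h3 : (G.biUnion Ap).card ≤ ∑ p ∈ G, (Ap p).card := Finset.card_biUnion_le
      have h4 : A.card ≤ AF.card + ∑ p ∈ G, (Ap p).card := by omega
      exact_mod_cast h4
    have hGV : ∀ p ∈ G, V < p := by
      intro p hp
      rw [hG, Finset.mem_filter] at hp
      exact (hstep P p hP hp.2.1 hp.2.2.1 hp.2.2.2).1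
    have hsum : ∑ p ∈ G, ((Ap p).card : ℝ) ≤ T * B' / QQ (FP P) * (V : ℝ)⁻¹ := by
      refine (Finset.sum_le_sum hApc).trans ?_
      rw [← Finset.mul_sum]
      exact mul_le_mul_of_nonneg_left (sum_inv_sq_le V hV G hGV)
        (div_nonneg (mul_nonneg hT0 hB'0) hQ.le)
    have hfin : τ * x / QQ (FP P) + T * B' / QQ (FP P) * (V : ℝ)⁻¹ ≤
        (2 * ((T : ℝ) / V) ^ (r + 1) + (r + 1 : ℕ) * τ) * x / QQ (FP P) := by
      have e : τ * x / QQ (FP P) + T * B' / QQ (FP P) * (V : ℝ)⁻¹ =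
          (τ * x + (T : ℝ) / V * B') / QQ (FP P) := by
        field_simp
      rw [e]
      refine div_le_div_of_nonneg_right ?_ hQ.le
      rw [hB', pow_succ]
      push_cast
      have h5 : (T : ℝ) / V * (r * τ * x) ≤ 1 * (r * τ * x) :=
        mul_le_mul_of_nonneg_right hd1 (by positivity)
      nlinarith
    linarith

end Pool.Agent.H49.SF
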